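import Pool.Agent.H53Quad.Inv2

set_option autoImplicit false

/-!
# A convex polygon with quadrisections in all directions through one point has `4 j` vertices
-/

namespace Pool.Agent.H53Quad

open MeasureTheory Set Pool.Agent.Q285.Quad

theorem ext_eq (V : Finset (ℝ × ℝ))
    (h : ∀ v ∈ V, v ∉ convexHull ℝ ((V : Set (ℝ × ℝ)) \ {v})) :
    (convexHull ℝ (V : Set (ℝ × ℝ))).extremePoints ℝ = V := by
  apply Subset.antisymm extremePoints_convexHull_subset
  intro v hv
  by_contra hne
  have hcomp : IsCompact (convexHull ℝ (V : Set (ℝ × ℝ))) :=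
    V.finite_toSet.isCompact_convexHull ℝ
  have hKM := closure_convexHull_extremePoints hcomp (convex_convexHull ℝ _)
  have hE : (convexHull ℝ (V : Set (ℝ × ℝ))).extremePoints ℝ ⊆ (V : Set (ℝ × ℝ)) \ {v} := by
    intro x hx
    refine ⟨extremePoints_convexHull_subset hx, ?_⟩
    rintro rfl
    exact hne hx
  have hc2 : IsCompact (convexHull ℝ ((V : Set (ℝ × ℝ)) \ {v})) :=
    (V.finite_toSet.subset sdiff_subset).isCompact_convexHull ℝ
  have hsub : closure (convexHull ℝ ((convexHull ℝ (V : Set (ℝ × ℝ))).extremePoints ℝ)) ⊆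
      convexHull ℝ ((V : Set (ℝ × ℝ)) \ {v}) :=
    closure_minimal (convexHull_mono hE) hc2.isClosed
  rw [hKM] at hsub
  exact h v hv (hsub (subset_convexHull ℝ _ hv))

theorem turn_ext {R : Set (ℝ × ℝ)} {p : ℝ × ℝ} (hT : ∀ x ∈ R, turn p x ∈ R) {x : ℝ × ℝ}
    (hx : x ∈ R.extremePoints ℝ) : turn p x ∈ R.extremePoints ℝ := by
  rw [mem_extremePoints_iff_left] at hx ⊢
  refine ⟨hT _ hx.1, ?_⟩
  rintro a ha b hb ⟨s, t, hs, ht, hst, hab⟩
  have h3 : ∀ y ∈ R, turn p (turn p (turn p y)) ∈ R := fun y hy => hT _ (hT _ (hT _ hy))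
  have := hx.2 _ (h3 a ha) _ (h3 b hb) ⟨s, t, hs, ht, hst, by
    rw [← turn_comb _ _ _ hst, ← turn_comb _ _ _ hst, ← turn_comb _ _ _ hst, hab, turn4]⟩
  have h4 := congrArg (turn p) this
  rw [turn4] at h4
  exact h4

theorem not_ext {R : Set (ℝ × ℝ)} {p : ℝ × ℝ} (hp : p ∈ interior R) :
    p ∉ R.extremePoints ℝ := by
  intro h
  rw [mem_extremePoints_iff_left] at h
  obtain ⟨δ, hδ, hball⟩ := Metric.isOpen_iff.1 isOpen_interior p hp
  have m1 : p + (δ / 2, 0) ∈ R := by
    refine interior_subset (hball ?_)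
    rw [Metric.mem_ball, Prod.dist_eq, max_lt_iff]
    constructor
    · simp only [Prod.fst_add, Real.dist_eq, add_sub_cancel_left]
      rw [abs_of_pos (by linarith)]
      linarith
    · simpa using hδ
  have m2 : p - (δ / 2, 0) ∈ R := by
    refine interior_subset (hball ?_)
    rw [Metric.mem_ball, Prod.dist_eq, max_lt_iff]
    constructor
    · simp only [Prod.fst_sub, Real.dist_eq, sub_sub_cancel_left, abs_neg]
      rw [abs_of_pos (by linarith)]
      linarith
    · simpa using hδ
  have := h.2 _ m1 _ m2 ⟨1 / 2, 1 / 2, by norm_num, by norm_num, by norm_num, by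
    ext
    · simp only [Prod.fst_add, Prod.smul_fst, Prod.fst_sub, smul_eq_mul]
      ring
    · simp only [Prod.snd_add, Prod.smul_snd, Prod.snd_sub, smul_eq_mul]
      ring⟩
  have h1 := congrArg Prod.fst this
  simp only [Prod.fst_add] at h1
  linarith

theorem card_comp {X : Type*} (V : Finset X) (T : X → X) (hT : ∀ x ∈ V, T x ∈ V)
    (h4 : ∀ x, T (T (T (T x))) = x) (P : X → Prop) [DecidablePred P]
    [DecidablePred fun x => P (T x)] :
    (V.filter fun x => P (T x)).card = (V.filter P).card := by
  refine Finset.card_bij (fun x _ => T x) ?_ ?_ ?_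
  · intro x hx
    rw [Finset.mem_filter] at hx ⊢
    exact ⟨hT _ hx.1, hx.2⟩
  · intro x _ y _ hxy
    have := congrArg (fun z => T (T (T z))) hxy
    simpa only [h4] using this
  · intro y hy
    rw [Finset.mem_filter] at hy
    refine ⟨T (T (T y)), ?_, h4 y⟩
    rw [Finset.mem_filter]
    refine ⟨hT _ (hT _ (hT _ hy.1)), ?_⟩
    rw [h4]
    exact hy.2

theorem four_dvd (V : Finset (ℝ × ℝ)) (p : ℝ × ℝ) (hp : p ∉ V)
    (hT : ∀ x ∈ V, turn p x ∈ V) : 4 ∣ V.card := by
  classical
  set P : ℝ × ℝ → Prop := fun x => 0 < x.1 - p.1 ∧ 0 ≤ x.2 - p.2 with hP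
  have c1 := card_comp V (turn p) hT (turn4 p) P
  have c2 := card_comp V (turn p) hT (turn4 p) (fun x => P (turn p x))
  have c3 := card_comp V (turn p) hT (turn4 p) (fun x => P (turn p (turn p x)))
  have t1 : ∀ x, (turn p x).1 = p.1 - (x.2 - p.2) := fun x => by
    simp only [turn, rot, Prod.fst_add, Prod.snd_sub]; ring
  have t2 : ∀ x, (turn p x).2 = p.2 + (x.1 - p.1) := fun x => by
    simp only [turn, rot, Prod.snd_add, Prod.fst_sub]
  have hsum : V.card = (V.filter P).card + (V.filter fun x => P (turn p x)).card +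
      (V.filter fun x => P (turn p (turn p x))).card +
      (V.filter fun x => P (turn p (turn p (turn p x)))).card := by
    rw [Finset.card_filter, Finset.card_filter, Finset.card_filter, Finset.card_filter,
      ← Finset.sum_add_distrib, ← Finset.sum_add_distrib, ← Finset.sum_add_distrib,
      Finset.card_eq_sum_ones]
    refine Finset.sum_congr rfl ?_
    intro x hx
    have hne : x.1 - p.1 ≠ 0 ∨ x.2 - p.2 ≠ 0 := by
      by_contra h
      push Not at h
      have : x = p := Prod.ext (sub_eq_zero.1 h.1) (sub_eq_zero.1 h.2)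
      exact hp (this ▸ hx)
    simp only [hP, t1, t2]
    set a := x.1 - p.1
    set b := x.2 - p.2
    have e1 : p.1 - b - p.1 = -b := by ring
    have e2 : p.2 + a - p.2 = a := by ring
    simp only [e1, e2]
    have e3 : p.1 - a - p.1 = -a := by ring
    have e4 : p.2 + -b - p.2 = -b := by ring
    simp only [e3, e4]
    have e5 : p.1 - -b - p.1 = b := by ring
    have e6 : p.2 + -a - p.2 = -a := by ring
    simp only [e5, e6]
    rcases lt_trichotomy a 0 with ha | ha | ha <;> rcases lt_trichotomy b 0 with hb | hb | hb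
    · rw [if_neg (fun h => by linarith [h.1]), if_neg (fun h => by linarith [h.2]),
        if_pos ⟨by linarith, by linarith⟩, if_neg (fun h => by linarith [h.1])]
    · rw [if_neg (fun h => by linarith [h.1]), if_neg (fun h => by linarith [h.2]),
        if_pos ⟨by linarith, by linarith⟩, if_neg (fun h => by linarith [h.1])]
    · rw [if_neg (fun h => by linarith [h.1]), if_neg (fun h => by linarith [h.2]),
        if_neg (fun h => by linarith [h.2]), if_pos ⟨by linarith, by linarith⟩]
    · rw [if_neg (fun h => by linarith [h.1]), if_pos ⟨by linarith, by linarith⟩,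
        if_neg (fun h => by linarith [h.1]), if_neg (fun h => by linarith [h.1])]
    · rcases hne with h | h
      · exact absurd ha h
      · exact absurd hb h
    · rw [if_neg (fun h => by linarith [h.1]), if_neg (fun h => by linarith [h.1]),
        if_neg (fun h => by linarith [h.1]), if_pos ⟨by linarith, by linarith⟩]
    · rw [if_neg (fun h => by linarith [h.2]), if_pos ⟨by linarith, by linarith⟩,
        if_neg (fun h => by linarith [h.1]), if_neg (fun h => by linarith [h.1])]
    · rw [if_pos ⟨by linarith, by linarith⟩, if_neg (fun h => by linarith [h.1]),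
        if_neg (fun h => by linarith [h.1]), if_neg (fun h => by linarith [h.1])]
    · rw [if_pos ⟨by linarith, by linarith⟩, if_neg (fun h => by linarith [h.1]),
        if_neg (fun h => by linarith [h.1]), if_neg (fun h => by linarith [h.2])]
  refine ⟨(V.filter P).card, ?_⟩
  rw [hsum]
  omega

/-- If all pairs of perpendicular lines through `p` are quadrisections of a convex `m`-gon then
`4` divides `m`. -/
theorem four_dvd_of_all {m : ℕ} {R : Set (ℝ × ℝ)} (hR : IsConvexGon m R) {p : ℝ × ℝ}
    (H : ∀ u : ℝ × ℝ, u ≠ 0 → IsQuadrisection R {line p u, line p (rot u)}) : 4 ∣ m := by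
  obtain ⟨V, hcard, rfl, hint, hV⟩ := hR
  have hp := (all_quarters (u := ((1, 0) : ℝ × ℝ)) (by simp) (H _ (by simp))).1
  have hT := invariant (convex_convexHull ℝ _) (V.finite_toSet.isCompact_convexHull ℝ) hp
    (fun u hu => (all_quarters hu (H u hu)).2)
  have hE := ext_eq V hV
  rw [← hcard]
  refine four_dvd V p ?_ ?_
  · intro h
    have h1 : p ∈ (convexHull ℝ (V : Set (ℝ × ℝ))).extremePoints ℝ := by
      rw [hE]
      exact h
    exact not_ext hp h1
  · intro x hx
    have h1 : x ∈ (convexHull ℝ (V : Set (ℝ × ℝ))).extremePoints ℝ := by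
      rw [hE]
      exact hx
    have h2 := turn_ext hT h1
    rw [hE] at h2
    exact h2

end Pool.Agent.H53Quad
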