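import Pool.Agent.H53Quad.Strip

set_option autoImplicit false

/-!
# Quadrisections in all directions through one point force invariance under a quarter turn
-/

namespace Pool.Agent.H53Quad

open MeasureTheory Set Pool.Agent.Q285.Quad

theorem dot_smul_r (y u : ℝ × ℝ) (c : ℝ) : dot y (c • u) = c * dot y u := by
  simp only [dot, Prod.smul_fst, Prod.smul_snd, smul_eq_mul]
  ring

theorem rot_smul' (u : ℝ × ℝ) (c : ℝ) : rot (c • u) = c • rot u := by
  ext <;> simp [rot]

theorem rot_rot' (u : ℝ × ℝ) : rot (rot u) = -u := by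
  ext <;> simp [rot]

theorem dot_neg_r (y u : ℝ × ℝ) : dot y (-u) = -dot y u := by
  simp only [dot, Prod.fst_neg, Prod.snd_neg]
  ring

theorem line_ne {p u : ℝ × ℝ} (hu : u ≠ 0) : line p u ≠ line p (rot u) := by
  intro h
  have h1 := det_of_line_eq h
  have h2 := dot_self_pos hu
  simp only [det, rot, dot] at h1 h2
  linarith

theorem par {u u' : ℝ × ℝ} (hu : u ≠ 0) (h : det u u' = 0) : ∃ c : ℝ, u' = c • u := by
  have h0 := (dot_self_pos hu).ne'
  refine ⟨dot u' u / dot u u, ?_⟩
  simp only [det] at h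
  ext
  · simp only [Prod.smul_fst, smul_eq_mul]
    rw [div_mul_eq_mul_div, eq_div_iff h0]
    simp only [dot]
    linear_combination (-u.2) * h
  · simp only [Prod.smul_snd, smul_eq_mul]
    rw [div_mul_eq_mul_div, eq_div_iff h0]
    simp only [dot]
    linear_combination (u.1) * h

theorem meet {p p' u : ℝ × ℝ} (hu : u ≠ 0) (h1 : p ∈ line p' u) (h2 : p ∈ line p' (rot u)) :
    p = p' := by
  obtain ⟨t, ht⟩ := h1
  obtain ⟨s, hs⟩ := h2
  have h3 : t • u = s • rot u := add_left_cancel (ht.symm.trans hs)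
  have h4 : t * dot u u = 0 := by
    have e1 := congrArg Prod.fst h3
    have e2 := congrArg Prod.snd h3
    simp only [Prod.smul_fst, Prod.smul_snd, smul_eq_mul, rot] at e1 e2
    simp only [dot]
    linear_combination u.1 * e1 + u.2 * e2
  rcases mul_eq_zero.1 h4 with h5 | h5
  · rw [ht, h5]
    simp
  · exact absurd h5 (dot_self_pos hu).ne'

theorem all_quarters {R : Set (ℝ × ℝ)} {p u : ℝ × ℝ} (hu : u ≠ 0)
    (h : IsQuadrisection R {line p u, line p (rot u)}) :
    p ∈ interior R ∧ volume (R ∩ quadrant p u 1 1) = volume R / 4 := by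
  obtain ⟨p', u', hu', hp', hL, hq⟩ := h
  have hru := rot_ne_zero hu
  have m1 : line p u ∈ ({line p' u', line p' (rot u')} : Set (Set (ℝ × ℝ))) := by
    rw [← hL]; simp
  have m2 : line p (rot u) ∈ ({line p' u', line p' (rot u')} : Set (Set (ℝ × ℝ))) := by
    rw [← hL]; simp
  have self : ∀ v, p ∈ line p v := fun v => ⟨0, by simp⟩
  rcases m1 with e1 | e1 <;> rcases m2 with e2 | e2
  · exact absurd (e1.trans e2.symm) (line_ne hu)
  · have e2' : line p (rot u) = line p' (rot u') := e2
    have hp : p = p' := meet hu' (e1 ▸ self u) (e2' ▸ self (rot u))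
    subst hp
    obtain ⟨c, rfl⟩ := par hu (det_of_line_eq e1)
    refine ⟨hp', ?_⟩
    have hc : c ≠ 0 := by
      rintro rfl
      simp at hu'
    rcases lt_or_gt_of_ne hc with hc | hc
    · rw [← hq (-1) (-1) (Or.inr rfl) (Or.inr rfl)]
      congr 2
      ext x
      simp only [quadrant, rot_smul', dot_smul_r, mem_ofPred_eq]
      have k1 : -1 * (c * dot (x - p) u) = (-c) * dot (x - p) u := by ring
      have k2 : -1 * (c * dot (x - p) (rot u)) = (-c) * dot (x - p) (rot u) := by ring
      rw [k1, k2, one_mul, one_mul, mul_nonneg_iff_of_pos_left (by linarith),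
        mul_nonneg_iff_of_pos_left (by linarith)]
    · rw [← hq 1 1 (Or.inl rfl) (Or.inl rfl)]
      congr 2
      ext x
      simp only [quadrant, rot_smul', dot_smul_r, mem_ofPred_eq, one_mul]
      rw [mul_nonneg_iff_of_pos_left hc, mul_nonneg_iff_of_pos_left hc]
  · have e1' : line p u = line p' (rot u') := e1
    have hp : p = p' := meet hu' (e2 ▸ self (rot u)) (e1' ▸ self u)
    subst hp
    obtain ⟨c, rfl⟩ := par hru (det_of_line_eq e2)
    refine ⟨hp', ?_⟩
    have hc : c ≠ 0 := by
      rintro rfl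
      simp at hu'
    rcases lt_or_gt_of_ne hc with hc | hc
    · rw [← hq (-1) 1 (Or.inr rfl) (Or.inl rfl)]
      congr 2
      ext x
      simp only [quadrant, rot_smul', rot_rot', dot_smul_r, dot_neg_r, mem_ofPred_eq]
      have k1 : -1 * (c * dot (x - p) (rot u)) = (-c) * dot (x - p) (rot u) := by ring
      have k2 : 1 * (c * -dot (x - p) u) = (-c) * dot (x - p) u := by ring
      rw [k1, k2, one_mul, one_mul, mul_nonneg_iff_of_pos_left (by linarith),
        mul_nonneg_iff_of_pos_left (by linarith), and_comm]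
    · rw [← hq 1 (-1) (Or.inl rfl) (Or.inr rfl)]
      congr 2
      ext x
      simp only [quadrant, rot_smul', rot_rot', dot_smul_r, dot_neg_r, mem_ofPred_eq]
      have k1 : 1 * (c * dot (x - p) (rot u)) = c * dot (x - p) (rot u) := by ring
      have k2 : -1 * (c * -dot (x - p) u) = c * dot (x - p) u := by ring
      rw [k1, k2, one_mul, one_mul, mul_nonneg_iff_of_pos_left hc,
        mul_nonneg_iff_of_pos_left hc, and_comm]
  · have e1' : line p u = line p' (rot u') := e1
    have e2' : line p (rot u) = line p' (rot u') := e2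
    exact absurd (e1'.trans e2'.symm) (line_ne hu)

/-- the quarter turn about `p` -/
def turn (p x : ℝ × ℝ) : ℝ × ℝ := p + rot (x - p)

theorem volume_turn (p : ℝ × ℝ) (S : Set (ℝ × ℝ)) : volume (turn p ⁻¹' S) = volume S := by
  have h : turn p ⁻¹' S = (fun x => x + -p) ⁻¹' (rot ⁻¹' ((fun y => p + y) ⁻¹' S)) := by
    ext x
    simp [turn, sub_eq_add_neg]
  rw [h, measure_preimage_add_right, volume_rot, measure_preimage_add]

theorem dot_turn (p x u : ℝ × ℝ) : dot (turn p x - p) u = -dot (x - p) (rot u) := by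
  simp only [turn, dot, rot, Prod.fst_sub, Prod.snd_sub, Prod.fst_add, Prod.snd_add]
  ring

theorem dot_turn_rot (p x u : ℝ × ℝ) : dot (turn p x - p) (rot u) = dot (x - p) u := by
  simp only [turn, dot, rot, Prod.fst_sub, Prod.snd_sub, Prod.fst_add, Prod.snd_add]
  ring

/-- the open wedge -/
def wedge (p u : ℝ × ℝ) (e : ℝ) : Set (ℝ × ℝ) :=
  {x | 0 < dot (x - p) (rot u) ∧ dot (x - p) (rot u) < e * dot (x - p) u}

theorem wedge_eq {R : Set (ℝ × ℝ)} (hR : IsCompact R) {p : ℝ × ℝ}
    (H : ∀ u : ℝ × ℝ, u ≠ 0 → volume (R ∩ quadrant p u 1 1) = volume R / 4) {u : ℝ × ℝ}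
    (hu : u ≠ 0) {e : ℝ} (he : 0 < e) :
    volume (R ∩ wedge p u e) = volume (turn p ⁻¹' R ∩ wedge p u e) := by
  set v : ℝ × ℝ := u + e • rot u with hv
  have hdv : ∀ y, dot y v = dot y u + e * dot y (rot u) := by
    intro y
    simp only [hv, dot, Prod.fst_add, Prod.snd_add, Prod.smul_fst, Prod.smul_snd, smul_eq_mul]
    ring
  have hdr : ∀ y, dot y (rot v) = dot y (rot u) - e * dot y u := by
    intro y
    simp only [hv, dot, rot, Prod.fst_add, Prod.snd_add, Prod.smul_fst, Prod.smul_snd, smul_eq_mul]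
    ring
  have hv0 : v ≠ 0 := by
    intro h
    have h1 := hdv u
    have h2 : dot u (rot u) = 0 := by simp only [dot, rot]; ring
    have h3 : dot u v = 0 := by rw [h]; simp [dot]
    rw [h2, h3] at h1
    have := dot_self_pos hu
    linarith
  have hfin : ∀ S : Set (ℝ × ℝ), volume (R ∩ S) ≠ ⊤ := fun S =>
    measure_ne_top_of_subset inter_subset_left hR.measure_lt_top.ne
  have hm : ∀ w : ℝ × ℝ, MeasurableSet (quadrant p w 1 1) := by
    intro w
    have : quadrant p w 1 1 = hp w (dot p w) ∩ hp (rot w) (dot p (rot w)) := by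
      ext x
      simp only [quadrant, hp, mem_inter_iff, mem_ofPred_eq, dot_sub]
      constructor <;> rintro ⟨h1, h2⟩ <;> constructor <;> linarith
    rw [this]
    exact ((isClosed_hp _ _).inter (isClosed_hp _ _)).measurableSet
  have a1 := measure_inter_add_sdiff (μ := volume) (R ∩ quadrant p u 1 1) (hm v)
  have a2 := measure_inter_add_sdiff (μ := volume) (R ∩ quadrant p v 1 1) (hm u)
  rw [H u hu, ← H v hv0] at a1
  have e0 : R ∩ quadrant p u 1 1 ∩ quadrant p v 1 1 = R ∩ quadrant p v 1 1 ∩ quadrant p u 1 1 := by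
    rw [inter_assoc, inter_assoc, inter_comm (quadrant p u 1 1)]
  rw [e0] at a1
  have a3 : volume ((R ∩ quadrant p u 1 1) \ quadrant p v 1 1) =
      volume ((R ∩ quadrant p v 1 1) \ quadrant p u 1 1) := by
    have a4 := a1.trans a2.symm
    refine (ENNReal.add_right_inj ?_).1 a4
    rw [inter_assoc]
    exact hfin _
  have n1 : ∀ᵐ x : ℝ × ℝ, dot x (rot u) ≠ dot p (rot u) := by
    rw [ae_iff]
    simpa using null_dot (rot_ne_zero hu) (dot p (rot u))
  have n2 : ∀ᵐ x : ℝ × ℝ, dot x (rot v) ≠ dot p (rot v) := by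
    rw [ae_iff]
    simpa using null_dot (rot_ne_zero hv0) (dot p (rot v))
  have b1 : volume ((R ∩ quadrant p u 1 1) \ quadrant p v 1 1) = volume (R ∩ wedge p u e) := by
    refine measure_congr ?_
    filter_upwards [n1, n2] with x h1 h2
    apply propext
    show ((x ∈ R ∧ x ∈ quadrant p u 1 1) ∧ x ∉ quadrant p v 1 1) ↔ (x ∈ R ∧ x ∈ wedge p u e)
    simp only [quadrant, wedge, mem_ofPred_eq, one_mul, hdv, hdr]
    have h1' : dot (x - p) (rot u) ≠ 0 := by
      rw [dot_sub]
      exact sub_ne_zero.2 h1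
    constructor
    · rintro ⟨⟨h3, h4, h5⟩, h6⟩
      have h7 : 0 < dot (x - p) (rot u) := lt_of_le_of_ne h5 h1'.symm
      refine ⟨h3, h7, ?_⟩
      by_contra hc
      push Not at hc
      exact h6 ⟨by have := mul_nonneg he.le h5; linarith, by linarith⟩
    · rintro ⟨h3, h4, h5⟩
      have h6 : 0 < dot (x - p) u := by
        by_contra hc
        push Not at hc
        have := mul_nonpos_of_nonneg_of_nonpos he.le hc
        linarith
      refine ⟨⟨h3, h6.le, h4.le⟩, ?_⟩
      rintro ⟨h7, h8⟩
      linarith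
  have b2 : volume ((R ∩ quadrant p v 1 1) \ quadrant p u 1 1) =
      volume (turn p ⁻¹' R ∩ wedge p u e) := by
    rw [← volume_turn p]
    refine measure_congr ?_
    filter_upwards [n1, n2] with x h1 h2
    apply propext
    show ((turn p x ∈ R ∧ turn p x ∈ quadrant p v 1 1) ∧ turn p x ∉ quadrant p u 1 1) ↔
      (turn p x ∈ R ∧ x ∈ wedge p u e)
    simp only [quadrant, wedge, mem_ofPred_eq, one_mul, hdv, hdr, dot_turn, rot_rot', dot_neg_r,
      neg_neg]
    have h1' : dot (x - p) (rot u) ≠ 0 := by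
      rw [dot_sub]
      exact sub_ne_zero.2 h1
    have h2' : dot (x - p) (rot u) - e * dot (x - p) u ≠ 0 := by
      rw [← hdr, dot_sub]
      exact sub_ne_zero.2 h2
    constructor
    · rintro ⟨⟨h3, h4, h5⟩, h6⟩
      have h7 : 0 < dot (x - p) (rot u) := by
        by_contra hc
        push Not at hc
        have h8 : dot (x - p) (rot u) < 0 := lt_of_le_of_ne hc h1'
        refine h6 ⟨by linarith, ?_⟩
        have h9 := mul_neg_of_pos_of_neg he h8
        linarith
      refine ⟨h3, h7, ?_⟩
      have h8 : e * dot (x - p) u - dot (x - p) (rot u) ≥ 0 := by linarith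
      exact lt_of_le_of_ne (by linarith) (fun h => h2' (by linarith))
    · rintro ⟨h3, h4, h5⟩
      have h6 : 0 < dot (x - p) u := by
        by_contra hc
        push Not at hc
        have := mul_nonpos_of_nonneg_of_nonpos he.le hc
        linarith
      refine ⟨⟨h3, by linarith, ?_⟩, ?_⟩
      · have := mul_pos he h4
        linarith
      · rintro ⟨h7, h8⟩
        linarith
  rw [← b1, ← b2, a3]

end Pool.Agent.H53Quad
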