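import Pool.Agent.H53Quad.Inv

set_option autoImplicit false

namespace Pool.Agent.H53Quad

open MeasureTheory Set Pool.Agent.Q285.Quad

theorem continuous_turn (p : ℝ × ℝ) : Continuous (turn p) := by
  unfold turn rot
  fun_prop

theorem turn_comb (p x y : ℝ × ℝ) {s t : ℝ} (hst : s + t = 1) :
    turn p (s • x + t • y) = s • turn p x + t • turn p y := by
  have hs : s = 1 - t := by linarith
  subst hs
  ext
  · simp only [turn, rot, Prod.fst_add, Prod.snd_add, Prod.fst_sub, Prod.snd_sub, Prod.smul_fst,
      Prod.smul_snd, smul_eq_mul]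
    ring
  · simp only [turn, rot, Prod.fst_add, Prod.snd_add, Prod.fst_sub, Prod.snd_sub, Prod.smul_fst,
      Prod.smul_snd, smul_eq_mul]
    ring

theorem turn4 (p x : ℝ × ℝ) : turn p (turn p (turn p (turn p x))) = x := by
  ext
  · simp only [turn, rot, Prod.fst_add, Prod.snd_add, Prod.fst_sub, Prod.snd_sub]
    ring
  · simp only [turn, rot, Prod.fst_add, Prod.snd_add, Prod.fst_sub, Prod.snd_sub]
    ring

/-- Equal area in all wedges gives invariance. -/
theorem invariant {R : Set (ℝ × ℝ)} (hconv : Convex ℝ R) (hR : IsCompact R) {p : ℝ × ℝ}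
    (hp : p ∈ interior R)
    (H : ∀ u : ℝ × ℝ, u ≠ 0 → volume (R ∩ quadrant p u 1 1) = volume R / 4) :
    ∀ x ∈ R, turn p x ∈ R := by
  have hpR : p ∈ R := interior_subset hp
  have hpt : turn p p ∈ R := by
    have : turn p p = p := by simp [turn, rot]
    rw [this]
    exact hpR
  have hcl : IsClosed (turn p ⁻¹' R) := hR.isClosed.preimage (continuous_turn p)
  have hconv' : Convex ℝ (turn p ⁻¹' R) := by
    intro x hx y hy s t hs ht hst
    show turn p (s • x + t • y) ∈ R
    rw [turn_comb p x y hst]
    exact hconv hx hy hs ht hst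
  have main : interior R ⊆ turn p ⁻¹' R := by
    intro x hx
    by_contra hxn
    have hopen : IsOpen (interior R ∩ (turn p ⁻¹' R)ᶜ) := isOpen_interior.inter hcl.isOpen_compl
    obtain ⟨δ, hδ, hball⟩ := Metric.isOpen_iff.1 hopen x ⟨hx, hxn⟩
    have hxp : x - p ≠ 0 := by
      intro h
      have : x = p := sub_eq_zero.1 h
      rw [this] at hxn
      exact hxn hpt
    set z : ℝ × ℝ := x - p with hz
    set D : ℝ := dot z z with hD
    have hD0 : 0 < D := dot_self_pos hxp
    -- the small angle
    obtain ⟨η, hη, hη2, hη1⟩ : ∃ η : ℝ, 0 < η ∧ η ≤ 1 ∧ η * (|z.1| + |z.2|) < δ := by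
      have hpos : 0 < |z.1| + |z.2| + 1 := by positivity
      refine ⟨min 1 (δ / (2 * (|z.1| + |z.2| + 1))), lt_min one_pos (by positivity),
        min_le_left _ _, ?_⟩
      calc min 1 (δ / (2 * (|z.1| + |z.2| + 1))) * (|z.1| + |z.2|)
          ≤ δ / (2 * (|z.1| + |z.2| + 1)) * (|z.1| + |z.2| + 1) :=
            mul_le_mul (min_le_right _ _) (by linarith) (by positivity) (by positivity)
        _ = δ / 2 := by field_simp
        _ < δ := by linarith
    set u : ℝ × ℝ := z - η • rot z with hu
    have d1 : dot z u = D := by
      simp only [hu, hD, dot, rot, Prod.fst_sub, Prod.snd_sub, Prod.smul_fst, Prod.smul_snd,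
        smul_eq_mul]
      ring
    have d2 : dot z (rot u) = η * D := by
      simp only [hu, hD, dot, rot, Prod.fst_sub, Prod.snd_sub, Prod.smul_fst, Prod.smul_snd,
        smul_eq_mul]
      ring
    have hu0 : u ≠ 0 := by
      intro h
      rw [h] at d1
      simp only [dot, Prod.fst_zero, Prod.snd_zero, mul_zero, add_zero] at d1
      linarith
    have hxW : x ∈ wedge p u (2 * η) := by
      refine ⟨?_, ?_⟩
      · rw [← hz, d2]
        positivity
      · rw [← hz, d2, d1]
        have := mul_pos hη hD0
        linarith
    have hWopen : IsOpen (wedge p u (2 * η)) := by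
      unfold wedge
      have k1 : Continuous fun y : ℝ × ℝ => dot (y - p) (rot u) := by unfold dot; fun_prop
      have k2 : Continuous fun y : ℝ × ℝ => 2 * η * dot (y - p) u := by unfold dot; fun_prop
      exact IsOpen.inter (isOpen_lt continuous_const k1) (isOpen_lt k1 k2)
    -- rays of the wedge meet the ball
    have key : ∀ y ∈ wedge p u (2 * η), ∃ l : ℝ, 0 < l ∧ p + l • (y - p) ∈ Metric.ball x δ := by
      rintro y ⟨hy1, hy2⟩
      set α := dot (y - p) u with hα
      set β := dot (y - p) (rot u) with hβ
      have hα0 : 0 < α := by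
        by_contra hc
        push Not at hc
        have := mul_nonpos_of_nonneg_of_nonpos (by linarith : (0 : ℝ) ≤ 2 * η) hc
        linarith
      refine ⟨D / α, div_pos hD0 hα0, ?_⟩
      -- coordinates
      have hU : dot u u = (1 + η ^ 2) * D := by
        simp only [hu, hD, dot, rot, Prod.fst_sub, Prod.snd_sub, Prod.smul_fst, Prod.smul_snd,
          smul_eq_mul]
        ring
      have hU0 : 0 < dot u u := dot_self_pos hu0
      -- the difference
      have hrep1 : (dot u u) * ((D / α) * (y - p).1 - z.1) = (D * (β / α) - η * D) * (rot u).1 := by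
        have e1 : dot u u * (y - p).1 = α * u.1 + β * (rot u).1 := by
          simp only [hα, hβ, dot, rot]
          ring
        have e2 : dot u u * z.1 = D * u.1 + η * D * (rot u).1 := by
          have : dot z u * u.1 + dot z (rot u) * (rot u).1 = dot u u * z.1 := by
            simp only [dot, rot]
            ring
          rw [d2, d1] at this
          linarith
        have e4 : (dot u u) * ((D / α) * (y - p).1 - z.1) =
            (D / α) * (dot u u * (y - p).1) - dot u u * z.1 := by ring
        rw [e4, e1, e2]
        field_simp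
        ring
      have hrep2 : (dot u u) * ((D / α) * (y - p).2 - z.2) = (D * (β / α) - η * D) * (rot u).2 := by
        have e1 : dot u u * (y - p).2 = α * u.2 + β * (rot u).2 := by
          simp only [hα, hβ, dot, rot]
          ring
        have e2 : dot u u * z.2 = D * u.2 + η * D * (rot u).2 := by
          have : dot z u * u.2 + dot z (rot u) * (rot u).2 = dot u u * z.2 := by
            simp only [dot, rot]
            ring
          rw [d2, d1] at this
          linarith
        have e4 : (dot u u) * ((D / α) * (y - p).2 - z.2) =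
            (D / α) * (dot u u * (y - p).2) - dot u u * z.2 := by ring
        rw [e4, e1, e2]
        field_simp
        ring
      have hβα : |β / α - η| ≤ η := by
        rw [abs_le]
        have h1 : 0 < β / α := div_pos hy1 hα0
        have h2 : β / α < 2 * η := by
          rw [div_lt_iff₀ hα0]
          exact hy2
        constructor <;> linarith
      have hDU : D ≤ dot u u := by
        rw [hU]
        have : 0 ≤ η ^ 2 * D := by positivity
        linarith
      have bound : ∀ q r : ℝ, dot u u * q = (D * (β / α) - η * D) * r → |q| ≤ η * |r| := by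
        intro q r h
        have h1 : dot u u * |q| = D * |β / α - η| * |r| := by
          have : |dot u u * q| = |D * (β / α - η) * r| := by
            rw [h]
            congr 1
            ring
          rw [abs_mul, abs_mul, abs_mul, abs_of_pos hU0, abs_of_pos hD0] at this
          exact this
        have h2 : D * |q| ≤ dot u u * |q| := mul_le_mul_of_nonneg_right hDU (abs_nonneg _)
        have h3 : D * |β / α - η| * |r| ≤ D * η * |r| :=
          mul_le_mul_of_nonneg_right (mul_le_mul_of_nonneg_left hβα hD0.le) (abs_nonneg _)
        have h4 : D * |q| ≤ D * (η * |r|) := by linarith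
        exact le_of_mul_le_mul_left h4 hD0
      have hb1 := bound _ _ hrep1
      have hb2 := bound _ _ hrep2
      have r1 : |(rot u).1| ≤ |z.1| + |z.2| := by
        have e1 : (rot u).1 = -z.2 + η * z.1 := by
          simp only [hu, rot, Prod.snd_sub, Prod.smul_snd, smul_eq_mul]
          ring
        rw [e1]
        refine (abs_add_le _ _).trans ?_
        rw [abs_neg, abs_mul, abs_of_pos hη]
        have := mul_le_mul_of_nonneg_right hη2 (abs_nonneg z.1)
        linarith
      have r2 : |(rot u).2| ≤ |z.1| + |z.2| := by
        have e1 : (rot u).2 = z.1 + η * z.2 := by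
          simp only [hu, rot, Prod.fst_sub, Prod.smul_fst, smul_eq_mul]
          ring
        rw [e1]
        refine (abs_add_le _ _).trans ?_
        rw [abs_mul, abs_of_pos hη]
        have := mul_le_mul_of_nonneg_right hη2 (abs_nonneg z.2)
        linarith
      have c1 : |D / α * (y - p).1 - z.1| < δ :=
        (hb1.trans (mul_le_mul_of_nonneg_left r1 hη.le)).trans_lt hη1
      have c2 : |D / α * (y - p).2 - z.2| < δ :=
        (hb2.trans (mul_le_mul_of_nonneg_left r2 hη.le)).trans_lt hη1
      rw [Metric.mem_ball, Prod.dist_eq, max_lt_iff, Real.dist_eq, Real.dist_eq]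
      constructor
      · have e : (p + (D / α) • (y - p)).1 - x.1 = D / α * (y - p).1 - z.1 := by
          have hz1 : z.1 = x.1 - p.1 := rfl
          rw [hz1, Prod.fst_add, Prod.smul_fst, smul_eq_mul]
          ring
        rw [e]
        exact c1
      · have e : (p + (D / α) • (y - p)).2 - x.2 = D / α * (y - p).2 - z.2 := by
          have hz1 : z.2 = x.2 - p.2 := rfl
          rw [hz1, Prod.snd_add, Prod.smul_snd, smul_eq_mul]
          ring
        rw [e]
        exact c2
    have hpR' : p ∈ turn p ⁻¹' R := hpt
    have hsub : turn p ⁻¹' R ∩ wedge p u (2 * η) ⊆ R ∩ wedge p u (2 * η) := by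
      rintro y ⟨hy, hyW⟩
      refine ⟨?_, hyW⟩
      obtain ⟨l, hl, hb⟩ := key y hyW
      obtain ⟨hb1, hb2⟩ := hball hb
      rcases le_or_gt l 1 with h1 | h1
      · exfalso
        refine hb2 ?_
        have := hconv' hpR' hy (show 0 ≤ 1 - l by linarith) hl.le (by ring)
        convert this using 1
        ext
        · simp only [Prod.fst_add, Prod.smul_fst, Prod.fst_sub, smul_eq_mul]; ring
        · simp only [Prod.snd_add, Prod.smul_snd, Prod.snd_sub, smul_eq_mul]; ring
      · have hl1 : l⁻¹ ≤ 1 := inv_le_one_of_one_le₀ h1.le
        have := hconv hpR (interior_subset hb1) (show 0 ≤ 1 - l⁻¹ by linarith)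
          (inv_nonneg.2 hl.le) (by ring)
        convert this using 1
        ext
        · simp only [Prod.fst_add, Prod.smul_fst, Prod.fst_sub, smul_eq_mul]
          field_simp
          ring
        · simp only [Prod.snd_add, Prod.smul_snd, Prod.snd_sub, smul_eq_mul]
          field_simp
          ring
    have hBo : IsOpen (Metric.ball x δ ∩ wedge p u (2 * η)) := Metric.isOpen_ball.inter hWopen
    have hdisj : Disjoint (turn p ⁻¹' R ∩ wedge p u (2 * η))
        (Metric.ball x δ ∩ wedge p u (2 * η)) := by
      rw [Set.disjoint_left]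
      rintro y ⟨hy, -⟩ ⟨hyb, -⟩
      exact (hball hyb).2 hy
    have hun := measure_union (μ := volume) hdisj hBo.measurableSet
    have hle : volume (turn p ⁻¹' R ∩ wedge p u (2 * η) ∪
        Metric.ball x δ ∩ wedge p u (2 * η)) ≤ volume (R ∩ wedge p u (2 * η)) := by
      refine measure_mono (union_subset hsub ?_)
      rintro y ⟨hy, hyW⟩
      exact ⟨interior_subset (hball hy).1, hyW⟩
    have heq := wedge_eq hR H hu0 (show 0 < 2 * η by linarith)
    rw [hun, heq] at hle
    have hfin : volume (turn p ⁻¹' R ∩ wedge p u (2 * η)) ≠ ⊤ := by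
      rw [← heq]
      exact measure_ne_top_of_subset inter_subset_left hR.measure_lt_top.ne
    have hz0 : volume (Metric.ball x δ ∩ wedge p u (2 * η)) ≤ 0 := by
      refine (ENNReal.add_le_add_iff_left hfin).1 ?_
      rw [add_zero]
      exact hle
    exact absurd (le_antisymm hz0 bot_le)
      (hBo.measure_pos volume ⟨x, Metric.mem_ball_self hδ, hxW⟩).ne'
  intro x hx
  have hne : (interior R).Nonempty := ⟨p, hp⟩
  have h1 := hconv.closure_interior_eq_closure_of_nonempty_interior hne
  have h2 : x ∈ closure (interior R) := by
    rw [h1]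
    exact subset_closure hx
  exact closure_minimal main hcl h2

end Pool.Agent.H53Quad
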