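import Pool.Agent.H53Quad.Inv

set_option autoImplicit false

/-!
# Regular polygons with `4 j` vertices
-/

namespace Pool.Agent.H53Quad

open MeasureTheory Set Pool.Agent.Q285.Quad

theorem quad_of_inv {R : Set (ℝ × ℝ)} (hconv : Convex ℝ R) (hcomp : IsCompact R)
    (hint : (interior R).Nonempty) (hrot : rot ⁻¹' R = R) {u : ℝ × ℝ} (hu0 : u ≠ 0) :
    IsQuadrisection R {line 0 u, line 0 (rot u)} := by
  set β := volume.real (R ∩ (hp u 0 ∩ hp (rot u) 0)) with hβ
  have e1 : volume.real (R ∩ (hn u 0 ∩ hp (rot u) 0)) = β := by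
    rw [← volumeReal_rot, rot_quad, neg_zero, hrot]
  have e2 : volume.real (R ∩ (hn u 0 ∩ hn (rot u) 0)) = β := by
    rw [← volumeReal_rot, rot_quad2, hrot, e1]
  have e3 : volume.real (R ∩ (hp u 0 ∩ hn (rot u) 0)) = β := by
    rw [← volumeReal_rot, rot_quad3, hrot, e2]
  have hfin : ∀ S : Set (ℝ × ℝ), volume (R ∩ S) ≠ ⊤ := fun S =>
    measure_ne_top_of_subset inter_subset_left (vol_ne_top hcomp)
  have hru := rot_ne_zero hu0
  have s1 := split (hfin (hp u 0)) (hcomp.measurableSet.inter (isClosed_hp u 0).measurableSet) hru 0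
  have s2 := split (hfin (hn u 0)) (hcomp.measurableSet.inter (isClosed_hn u 0).measurableSet) hru 0
  have s3 := split (hfin (hp (rot u) 0))
    (hcomp.measurableSet.inter (isClosed_hp (rot u) 0).measurableSet) hu0 0
  have s4 := split (vol_ne_top hcomp) hcomp.measurableSet hu0 0
  rw [inter_assoc, inter_assoc] at s1 s2 s3
  rw [inter_comm (hp (rot u) 0) (hp u 0), inter_comm (hp (rot u) 0) (hn u 0)] at s3
  have hV : volume.real R = 4 * β := by linarith
  have hpt : pt u 0 0 = 0 := by simp [pt]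
  have := quad_of_zero hconv hcomp hint hu0 (c := 0) (d := 0) (by linarith) (by linarith)
    (by linarith)
  rwa [hpt] at this

/-- the point with argument `2 π n / (4 j)` on the unit circle -/
noncomputable def pc (j n : ℕ) : ℝ × ℝ :=
  (Real.cos (2 * Real.pi * n / (4 * j)), Real.sin (2 * Real.pi * n / (4 * j)))

theorem pc_mod {j : ℕ} (hj : 1 ≤ j) (n : ℕ) : pc j (n % (4 * j)) = pc j n := by
  have hj0 : (j : ℝ) ≠ 0 := by
    have : (1 : ℝ) ≤ j := by exact_mod_cast hj
    linarith
  have h1 : (n : ℝ) = ((n % (4 * j) : ℕ) : ℝ) + 4 * j * ((n / (4 * j) : ℕ) : ℝ) := by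
    have := Nat.mod_add_div n (4 * j)
    exact_mod_cast this.symm
  have h2 : 2 * Real.pi * n / (4 * j) =
      2 * Real.pi * ((n % (4 * j) : ℕ) : ℝ) / (4 * j) + ((n / (4 * j) : ℕ) : ℝ) * (2 * Real.pi) := by
    rw [h1]
    field_simp
  simp only [pc]
  rw [h2, Real.cos_add_nat_mul_two_pi, Real.sin_add_nat_mul_two_pi]

theorem rot_pc {j : ℕ} (hj : 1 ≤ j) (n : ℕ) : rot (pc j n) = pc j (n + j) := by
  have hj0 : (j : ℝ) ≠ 0 := by
    have : (1 : ℝ) ≤ j := by exact_mod_cast hj
    linarith
  have h2 : 2 * Real.pi * ((n + j : ℕ) : ℝ) / (4 * j) = 2 * Real.pi * n / (4 * j) + Real.pi / 2 := by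
    push_cast
    field_simp
    ring
  simp only [pc, rot]
  rw [h2, Real.cos_add_pi_div_two, Real.sin_add_pi_div_two]

theorem dot_pc (j a b : ℕ) : dot (pc j a) (pc j b) =
    Real.cos (2 * Real.pi * a / (4 * j) - 2 * Real.pi * b / (4 * j)) := by
  simp only [dot, pc]
  rw [Real.cos_sub]

/-- For `m = 4 j` some convex `m`-gon is quadrisected by all pairs of perpendicular lines through
the origin. -/
theorem regular {j : ℕ} (hj : 1 ≤ j) : ∃ R : Set (ℝ × ℝ), IsConvexGon (4 * j) R ∧
    ∀ u : ℝ × ℝ, u ≠ 0 → IsQuadrisection R {line 0 u, line 0 (rot u)} := by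
  have hj1 : (1 : ℝ) ≤ j := by exact_mod_cast hj
  have hj0 : (j : ℝ) ≠ 0 := by linarith
  set v : Fin (4 * j) → ℝ × ℝ := fun i => pc j i with hv
  set R := convexHull ℝ (range v) with hR
  have hconv : Convex ℝ R := convex_convexHull ℝ _
  have hcomp : IsCompact R := compact_hull v
  have hmem : ∀ n : ℕ, pc j n ∈ R := by
    intro n
    rw [← pc_mod hj]
    exact subset_convexHull ℝ _ ⟨⟨n % (4 * j), Nat.mod_lt _ (by omega)⟩, rfl⟩
  have p0 : pc j 0 = (1, 0) := by simp [pc]
  have p1 : pc j j = (0, 1) := by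
    have := rot_pc hj 0
    rw [p0, zero_add] at this
    rw [← this]
    simp [rot]
  have p2 : pc j (j + j) = (-1, 0) := by
    rw [← rot_pc hj, p1]
    simp [rot]
  have hsub : tri ((-1, 0) : ℝ × ℝ) (2, 0) (1, 1) ⊆ R := by
    refine tri_subset hconv ?_ ?_ ?_
    · rw [← p2]
      exact hmem _
    · have : ((-1, 0) : ℝ × ℝ) + (2, 0) = pc j 0 := by
        rw [p0]
        ext <;> norm_num
      rw [this]
      exact hmem _
    · have : ((-1, 0) : ℝ × ℝ) + (1, 1) = pc j j := by
        rw [p1]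
        ext <;> norm_num
      rw [this]
      exact hmem _
  have hvol : 0 < volume.real R := by
    have h1 : volume.real (tri ((-1, 0) : ℝ × ℝ) (2, 0) (1, 1)) ≤ volume.real R :=
      measureReal_mono hsub (vol_ne_top hcomp)
    rw [measureReal_def, volume_tri] at h1
    have : |det ((2, 0) : ℝ × ℝ) (1, 1)| / 2 = 1 := by norm_num [det]
    rw [this] at h1
    simp at h1
    linarith
  have hint : (interior R).Nonempty := interior_of_vol hconv hvol
  have hrot1 : ∀ x ∈ R, rot x ∈ R := by
    have hc : Convex ℝ (rot ⁻¹' R) := by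
      intro x hx y hy s t hs ht hst
      have h1 := hconv (show rot x ∈ R from hx) (show rot y ∈ R from hy) hs ht hst
      show rot (s • x + t • y) ∈ R
      convert h1 using 1
      ext <;> simp [rot] <;> ring
    have : R ⊆ rot ⁻¹' R := by
      refine convexHull_min ?_ hc
      rintro _ ⟨i, rfl⟩
      show rot (pc j i) ∈ R
      rw [rot_pc hj]
      exact hmem _
    exact fun x hx => this hx
  have hrot : rot ⁻¹' R = R := by
    apply Subset.antisymm
    · intro x hx
      have h1 := hrot1 _ (hrot1 _ (hrot1 _ (show rot x ∈ R from hx)))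
      have : rot (rot (rot (rot x))) = x := by
        rw [rot_rot', rot_rot']
        have : rot (rot (-x)) = - -x := rot_rot' _
        simp [rot]
      rwa [this] at h1
    · exact fun x hx => hrot1 x hx
  refine ⟨R, ?_, fun u hu => quad_of_inv hconv hcomp hint hrot hu⟩
  have := gon_of_functionals v v (by
    intro i k hki
    simp only [hv, dot_pc, sub_self, Real.cos_zero]
    refine lt_of_le_of_ne (Real.cos_le_one _) ?_
    intro h
    have hpi := Real.pi_pos
    have hb : ∀ i : Fin (4 * j), 0 ≤ 2 * Real.pi * ((i : ℕ) : ℝ) / (4 * j) ∧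
        2 * Real.pi * ((i : ℕ) : ℝ) / (4 * j) < 2 * Real.pi := by
      intro i
      constructor
      · positivity
      · rw [div_lt_iff₀ (by linarith)]
        have : ((i : ℕ) : ℝ) < 4 * j := by exact_mod_cast i.2
        exact mul_lt_mul_of_pos_left this (by linarith)
    have h1 := hb i
    have h2 := hb k
    rw [Real.cos_eq_one_iff_of_lt_of_lt (by linarith) (by linarith), sub_eq_zero,
      div_left_inj' (by linarith)] at h
    have h3 := mul_left_cancel₀ (by linarith : (2 * Real.pi) ≠ 0) h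
    exact hki (Fin.ext (by exact_mod_cast h3))) hint
  rw [Fintype.card_fin] at this
  exact this

end Pool.Agent.H53Quad
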