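import Pool.Agent.H53Quad.Strip

set_option autoImplicit false

/-!
# The square with small cut corners
-/

namespace Pool.Agent.H53Quad

open MeasureTheory Set Pool.Agent.Q285.Quad

/-- the corner of the square next to a vertex -/
def cn {k : ℕ} : Fin k ⊕ Fin 6 → ℝ × ℝ
  | .inl _ => (1, 1)
  | .inr 0 => (-1, 1)
  | .inr 1 => (-1, 1)
  | .inr 2 => (-1, -1)
  | .inr 3 => (-1, -1)
  | .inr 4 => (1, -1)
  | .inr 5 => (1, -1)

/-- the vertices, moved towards the corners -/
noncomputable def vL (k : ℕ) (a l : ℝ) (i : Fin k ⊕ Fin 6) : ℝ × ℝ :=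
  ((1 - l) * (cn i).1 + l * (cv k a i).1, (1 - l) * (cn i).2 + l * (cv k a i).2)

theorem dot_vL (k : ℕ) (a l : ℝ) (i : Fin k ⊕ Fin 6) (f : ℝ × ℝ) :
    dot (vL k a l i) f = (1 - l) * dot (cn i) f + l * dot (cv k a i) f := by
  simp only [dot, vL]
  ring

theorem cn_le {k : ℕ} (j : Fin k ⊕ Fin 6) {f : ℝ × ℝ} (h1 : 0 ≤ f.1) (h2 : 0 ≤ f.2) :
    dot (cn j) f ≤ f.1 + f.2 := by
  match j with
  | .inl j => simp only [cn, dot]; linarith
  | .inr 0 => simp only [cn, dot]; linarith
  | .inr 1 => simp only [cn, dot]; linarith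
  | .inr 2 => simp only [cn, dot]; linarith
  | .inr 3 => simp only [cn, dot]; linarith
  | .inr 4 => simp only [cn, dot]; linarith
  | .inr 5 => simp only [cn, dot]; linarith

theorem weak {k : ℕ} (hk : 3 ≤ k) (i j : Fin k ⊕ Fin 6) :
    dot (cn j) (cf k i) ≤ dot (cn i) (cf k i) := by
  have hk3 : (3 : ℝ) ≤ k := by exact_mod_cast hk
  rcases i with i | i
  · have hpos : 0 ≤ (cf k (.inl i)).1 ∧ 0 ≤ (cf k (.inl i)).2 := by
      have hf : cf k (.inl i) = if (i : ℕ) = 0 then ((1, 2 * ((k : ℝ) - 1)) : ℝ × ℝ) else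
        if (i : ℕ) = k - 1 then (2 * ((k : ℝ) - 1), 1) else
          (2 / (1 - (i : ℝ) / (k - 1)), 2 / ((i : ℝ) / (k - 1))) := rfl
      obtain ⟨t0, t1⟩ := tau_mem hk i
      rw [hf]
      split_ifs with h2 h3
      · constructor <;> dsimp <;> linarith
      · constructor <;> dsimp <;> linarith
      · constructor
        · exact div_nonneg (by norm_num) (by linarith)
        · exact div_nonneg (by norm_num) t0
    have e : dot (cn (k := k) (.inl i)) (cf k (.inl i)) =
        (cf k (.inl i)).1 + (cf k (.inl i)).2 := by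
      simp only [cn, dot]
      ring
    rw [e]
    exact cn_le j hpos.1 hpos.2
  · rcases j with j | j
    · fin_cases i <;> simp [cn, cf, dot] <;> norm_num
    · fin_cases i <;> fin_cases j <;> simp [cn, cf, dot] <;> norm_num

theorem exposedL {k : ℕ} (hk : 3 ≤ k) {a : ℝ} (h0 : 0 < a) (h1 : a ≤ 1 / 2) {l : ℝ} (hl : 0 < l)
    (hl1 : l ≤ 1) (i j : Fin k ⊕ Fin 6) (hij : j ≠ i) :
    dot (vL k a l j) (cf k i) < dot (vL k a l i) (cf k i) := by
  rw [dot_vL, dot_vL]
  have e1 := mul_le_mul_of_nonneg_left (weak hk i j) (show 0 ≤ 1 - l by linarith)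
  have e2 := mul_lt_mul_of_pos_left (exposed hk h0 h1 i j hij) hl
  linarith

/-- the polygon -/
noncomputable def cutL (k : ℕ) (a l : ℝ) : Set (ℝ × ℝ) := convexHull ℝ (range (vL k a l))

theorem vL_mem {k : ℕ} {a l : ℝ} (i : Fin k ⊕ Fin 6) : vL k a l i ∈ cutL k a l :=
  subset_convexHull ℝ _ ⟨i, rfl⟩

theorem cn_sq {k : ℕ} (i : Fin k ⊕ Fin 6) : cn i ∈ Q285.Quad.sq := by
  match i with
  | .inl i => simp [cn, Q285.Quad.sq]
  | .inr 0 => simp [cn, Q285.Quad.sq]
  | .inr 1 => simp [cn, Q285.Quad.sq]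
  | .inr 2 => simp [cn, Q285.Quad.sq]
  | .inr 3 => simp [cn, Q285.Quad.sq]
  | .inr 4 => simp [cn, Q285.Quad.sq]
  | .inr 5 => simp [cn, Q285.Quad.sq]

theorem vL_sq {k : ℕ} (hk : 3 ≤ k) {a : ℝ} (h0 : 0 < a) (h1 : a ≤ 1 / 2) {l : ℝ} (hl : 0 < l)
    (hl1 : l ≤ 1) (i : Fin k ⊕ Fin 6) : vL k a l i ∈ Q285.Quad.sq := by
  have := convex_sq (cn_sq i) (cv_sq hk h0 h1 i) (show 0 ≤ 1 - l by linarith) hl.le (by ring)
  have e : (1 - l) • cn i + l • cv k a i = vL k a l i := by
    ext <;> simp [vL]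
  rwa [e] at this

theorem vL_inl {k : ℕ} {a l : ℝ} (i : Fin k) : vL k a l (.inl i) = hm l (w (i / (k - 1))) := by
  simp only [vL, cn, cv, hm]
  ext <;> simp

theorem gdL {k : ℕ} (hk : 3 ≤ k) {a : ℝ} (h0 : 0 < a) (h1 : a ≤ 1 / 2) {l : ℝ} (hl : 0 < l)
    (hl1 : l ≤ 1) : Gd (1 - l / 2) (cutL k a l) := by
  have hconv : Convex ℝ (cutL k a l) := convex_convexHull ℝ _
  have hla : l * a ≤ l * (1 / 2) := mul_le_mul_of_nonneg_left h1 hl.le
  have hla0 : 0 < l * a := mul_pos hl h0
  have m0 : ((-1 + l * a, 1) : ℝ × ℝ) ∈ cutL k a l := by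
    have := vL_mem (k := k) (a := a) (l := l) (.inr 0)
    have e : vL k a l (.inr 0) = (-1 + l * a, 1) := by
      simp only [vL, cn, cv]; ext <;> dsimp <;> ring
    rwa [e] at this
  have m1 : ((-1, 1 - l * a) : ℝ × ℝ) ∈ cutL k a l := by
    have := vL_mem (k := k) (a := a) (l := l) (.inr 1)
    have e : vL k a l (.inr 1) = (-1, 1 - l * a) := by
      simp only [vL, cn, cv]; ext <;> dsimp <;> ring
    rwa [e] at this
  have m2 : ((-1, -1 + l * a) : ℝ × ℝ) ∈ cutL k a l := by
    have := vL_mem (k := k) (a := a) (l := l) (.inr 2)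
    have e : vL k a l (.inr 2) = (-1, -1 + l * a) := by
      simp only [vL, cn, cv]; ext <;> dsimp <;> ring
    rwa [e] at this
  have m3 : ((-1 + l * a, -1) : ℝ × ℝ) ∈ cutL k a l := by
    have := vL_mem (k := k) (a := a) (l := l) (.inr 3)
    have e : vL k a l (.inr 3) = (-1 + l * a, -1) := by
      simp only [vL, cn, cv]; ext <;> dsimp <;> ring
    rwa [e] at this
  have m4 : ((1 - l * a, -1) : ℝ × ℝ) ∈ cutL k a l := by
    have := vL_mem (k := k) (a := a) (l := l) (.inr 4)
    have e : vL k a l (.inr 4) = (1 - l * a, -1) := by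
      simp only [vL, cn, cv]; ext <;> dsimp <;> ring
    rwa [e] at this
  have m5 : ((1, -1 + l * a) : ℝ × ℝ) ∈ cutL k a l := by
    have := vL_mem (k := k) (a := a) (l := l) (.inr 5)
    have e : vL k a l (.inr 5) = (1, -1 + l * a) := by
      simp only [vL, cn, cv]; ext <;> dsimp <;> ring
    rwa [e] at this
  have m6 : ((1 - l / 2, 1) : ℝ × ℝ) ∈ cutL k a l := by
    have := vL_mem (k := k) (a := a) (l := l) (.inl ⟨0, by omega⟩)
    have e : vL k a l (.inl ⟨0, by omega⟩) = (1 - l / 2, 1) := by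
      rw [vL_inl]
      have : (((⟨0, by omega⟩ : Fin k) : ℕ) : ℝ) / ((k : ℝ) - 1) = 0 := by simp
      rw [this, w_zero, hm]
      ext <;> dsimp <;> ring
    rwa [e] at this
  have m7 : ((1, 1 - l / 2) : ℝ × ℝ) ∈ cutL k a l := by
    have := vL_mem (k := k) (a := a) (l := l) (.inl ⟨k - 1, by omega⟩)
    have e : vL k a l (.inl ⟨k - 1, by omega⟩) = (1, 1 - l / 2) := by
      rw [vL_inl]
      have : (((⟨k - 1, by omega⟩ : Fin k) : ℕ) : ℝ) / ((k : ℝ) - 1) = 1 := by
        have h4 : ((k - 1 : ℕ) : ℝ) = (k : ℝ) - 1 := by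
          rw [Nat.cast_sub (by omega)]
          simp
        have h5 : (3 : ℝ) ≤ k := by exact_mod_cast hk
        dsimp only
        rw [h4, div_self (by linarith)]
      rw [this, w_one, hm]
      ext <;> dsimp <;> ring
    rwa [e] at this
  refine ⟨hconv, compact_hull _, ?_, ?_⟩
  · refine convexHull_min ?_ convex_sq
    rintro _ ⟨i, rfl⟩
    exact vL_sq hk h0 h1 hl hl1 i
  · rintro x y (⟨rfl | rfl, rfl | rfl⟩ | ⟨rfl | rfl, rfl | rfl⟩)
    · exact m7
    · exact seg_snd hconv m5 m7 (by linarith) (by linarith)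
    · exact seg_snd hconv m2 m1 (by linarith) (by linarith)
    · exact seg_snd hconv m2 m1 (by linarith) (by linarith)
    · exact m6
    · exact seg_fst hconv m3 m4 (by linarith) (by linarith)
    · exact seg_fst hconv m0 m6 (by linarith) (by linarith)
    · exact seg_fst hconv m3 m4 (by linarith) (by linarith)

theorem vL_le {k : ℕ} {a l α β γ : ℝ} (h : ∀ i, α * (vL k a l i).1 + β * (vL k a l i).2 ≤ γ) :
    ∀ x ∈ cutL k a l, α * x.1 + β * x.2 ≤ γ := by
  have : cutL k a l ⊆ {x : ℝ × ℝ | α * x.1 + β * x.2 ≤ γ} := by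
    refine convexHull_min ?_ (convex_le _ _ _)
    rintro _ ⟨i, rfl⟩
    exact h i
  exact this

theorem T1_subL {k : ℕ} (hk : 3 ≤ k) {a : ℝ} (h0 : 0 < a) (h1 : a ≤ 1 / 2) {l : ℝ} (hl : 0 < l)
    (hl1 : l ≤ 1) : T1 k ⊆ hm l ⁻¹' cutL k a l := by
  have h := gdL hk h0 h1 hl hl1
  have hg := good_hm hl hl1 h
  have : T1 k ⊆ hm l ⁻¹' cutL k a l ∩ Q285.Quad.sq := by
    refine convexHull_min ?_ hg.conv
    rintro _ ⟨i, rfl⟩
    match i with
    | none =>
      exact rect_mem hg.conv (hg.pt (-(1 / 2)) (-1) (by norm_num)) (hg.pt (-(1 / 2)) 1 (by norm_num))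
            (hg.pt (1 / 2) (-1) (by norm_num)) (hg.pt (1 / 2) 1 (by norm_num)) (by norm_num [chain])
            (by norm_num [chain]) (by norm_num [chain]) (by norm_num [chain])
    | some i =>
      obtain ⟨hx1, hx2, hx3, hx4⟩ := w_mem_box (tau_mem hk i).1 (tau_mem hk i).2
      refine ⟨?_, ?_⟩
      · show hm l (w (i / (k - 1))) ∈ cutL k a l
        rw [← vL_inl (a := a)]
        exact vL_mem _
      · show w (i / (k - 1)) ∈ Q285.Quad.sq
        exact ⟨by linarith, hx2, by linarith, hx4⟩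
  exact this.trans inter_subset_left

theorem belowL {k : ℕ} (hk : 3 ≤ k) {a : ℝ} (h0 : 0 < a) (h1 : a ≤ 1 / 2) {l : ℝ} (hl : 0 < l)
    (hl1 : l ≤ 1) :
    ∀ x ∈ hm l ⁻¹' cutL k a l, ∃ y ∈ T1 k, x.1 ≤ y.1 ∧ x.2 ≤ y.2 := by
  have hla : l * a ≤ l * (1 / 2) := mul_le_mul_of_nonneg_left h1 hl.le
  have hla0 : 0 < l * a := mul_pos hl h0
  have hD : Convex ℝ {x : ℝ × ℝ | ∃ y ∈ T1 k, x.1 ≤ (hm l y).1 ∧ x.2 ≤ (hm l y).2} := by
    rintro x ⟨x', hx', hx1, hx2⟩ y ⟨y', hy', hy1, hy2⟩ s t hs ht hst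
    refine ⟨s • x' + t • y', convex_T1 k hx' hy' hs ht hst, ?_, ?_⟩
    · have k1 := mul_le_mul_of_nonneg_left hx1 hs
      have k2 := mul_le_mul_of_nonneg_left hy1 ht
      have e : (1 - l) = s * (1 - l) + t * (1 - l) := by rw [← add_mul, hst, one_mul]
      simp only [hm, Prod.fst_add, Prod.smul_fst, smul_eq_mul] at k1 k2 ⊢
      linarith
    · have k1 := mul_le_mul_of_nonneg_left hx2 hs
      have k2 := mul_le_mul_of_nonneg_left hy2 ht
      have e : (1 - l) = s * (1 - l) + t * (1 - l) := by rw [← add_mul, hst, one_mul]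
      simp only [hm, Prod.snd_add, Prod.smul_snd, smul_eq_mul] at k1 k2 ⊢
      linarith
  have hsub : cutL k a l ⊆ {x : ℝ × ℝ | ∃ y ∈ T1 k, x.1 ≤ (hm l y).1 ∧ x.2 ≤ (hm l y).2} := by
    refine convexHull_min ?_ hD
    rintro _ ⟨i, rfl⟩
    have k0 := w0_mem hk
    have k1 := w1_mem hk
    match i with
    | .inl i =>
      refine ⟨_, subset_convexHull ℝ _ ⟨some i, rfl⟩, ?_⟩
      rw [vL_inl]
      exact ⟨le_rfl, le_rfl⟩
    | .inr 0 => exact ⟨_, k0, by simp only [vL, cn, cv, hm]; linarith,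
        by simp only [vL, cn, cv, hm]; linarith⟩
    | .inr 1 => exact ⟨_, k0, by simp only [vL, cn, cv, hm]; linarith,
        by simp only [vL, cn, cv, hm]; linarith⟩
    | .inr 2 => exact ⟨_, k0, by simp only [vL, cn, cv, hm]; linarith,
        by simp only [vL, cn, cv, hm]; linarith⟩
    | .inr 3 => exact ⟨_, k0, by simp only [vL, cn, cv, hm]; linarith,
        by simp only [vL, cn, cv, hm]; linarith⟩
    | .inr 4 => exact ⟨_, k1, by simp only [vL, cn, cv, hm]; linarith,
        by simp only [vL, cn, cv, hm]; linarith⟩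
    | .inr 5 => exact ⟨_, k1, by simp only [vL, cn, cv, hm]; linarith,
        by simp only [vL, cn, cv, hm]; linarith⟩
  intro x hx
  obtain ⟨y, hy, h2, h3⟩ := hsub hx
  refine ⟨y, hy, ?_, ?_⟩
  · by_contra hc
    push Not at hc
    have := mul_lt_mul_of_pos_left hc hl
    simp only [hm] at h2
    linarith
  · by_contra hc
    push Not at hc
    have := mul_lt_mul_of_pos_left hc hl
    simp only [hm] at h3
    linarith

theorem volume_first {k : ℕ} (hk : 3 ≤ k) {a : ℝ} (h0 : 0 < a) (h1 : a ≤ 1 / 2) {l : ℝ}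
    (hl : 0 < l) (hl1 : l ≤ 1) :
    volume.real (cutL k a l ∩ bx (1 - l / 2)) = l ^ 2 * volume.real (T1 k) := by
  have e := volumeReal_hm hl (cutL k a l ∩ bx (1 - l / 2))
  rw [preimage_inter, hm_bx hl, box_part hk (T1_subL hk h0 h1 hl hl1)
    (belowL hk h0 h1 hl hl1)] at e
  rw [e]
  have hl2 : l ^ 2 ≠ 0 := by positivity
  field_simp

/-- **The square with small cut corners**: quadrisections in all directions which are not close to
a diagonal of the square. -/
theorem most_directions {k : ℕ} (hk : 3 ≤ k) {l : ℝ} (hl : 0 < l) (hl1 : l ≤ 1) :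
    ∃ R : Set (ℝ × ℝ), IsConvexGon (k + 6) R ∧ R ⊆ Icc (-1) 1 ×ˢ Icc (-1) 1 ∧
      ∀ u : ℝ × ℝ, 0 < u.1 → u.2 ≤ (1 - l / 2) * u.1 → -((1 - l / 2) * u.1) ≤ u.2 →
        IsQuadrisection R {line 0 u, line 0 (rot u)} := by
  set κ := volume.real (T1 k) with hκ
  have hκ1 := T1_upper hk
  have hκ2 := T1_lower hk
  rw [← hκ] at hκ1 hκ2
  set a := Real.sqrt (2 * (1 / 4 - κ)) with ha
  have ha2 : a ^ 2 = 2 * (1 / 4 - κ) := by
    rw [ha, Real.sq_sqrt (by linarith)]
  have h0 : 0 < a := by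
    rw [ha]
    exact Real.sqrt_pos.2 (by linarith)
  have h1 : a ≤ 1 / 2 := by
    by_contra h
    push Not at h
    nlinarith
  have hκa : κ = 1 / 4 - a ^ 2 / 2 := by linarith
  have hla : l * a ≤ l * (1 / 2) := mul_le_mul_of_nonneg_left h1 hl.le
  have hla0 : 0 < l * a := mul_pos hl h0
  have hg := gdL hk h0 h1 hl hl1
  have hv1 := volume_first hk h0 h1 hl hl1
  set R := cutL k a l with hR
  have hvol : 0 < volume.real R := by
    have h2 : volume.real (R ∩ bx (1 - l / 2)) ≤ volume.real R :=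
      measureReal_mono inter_subset_left (vol_ne_top hg.comp)
    have h3 : 0 < l ^ 2 * volume.real (T1 k) := mul_pos (by positivity) (by rw [← hκ]; linarith)
    linarith
  have hint : (interior R).Nonempty := interior_of_vol hg.conv hvol
  have m0 : ((-1 + l * a, 1) : ℝ × ℝ) ∈ R := by
    have := vL_mem (k := k) (a := a) (l := l) (.inr 0)
    have e : vL k a l (.inr 0) = (-1 + l * a, 1) := by
      simp only [vL, cn, cv]; ext <;> dsimp <;> ring
    rwa [e] at this
  have m1 : ((-1, 1 - l * a) : ℝ × ℝ) ∈ R := by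
    have := vL_mem (k := k) (a := a) (l := l) (.inr 1)
    have e : vL k a l (.inr 1) = (-1, 1 - l * a) := by
      simp only [vL, cn, cv]; ext <;> dsimp <;> ring
    rwa [e] at this
  have m2 : ((-1, -1 + l * a) : ℝ × ℝ) ∈ R := by
    have := vL_mem (k := k) (a := a) (l := l) (.inr 2)
    have e : vL k a l (.inr 2) = (-1, -1 + l * a) := by
      simp only [vL, cn, cv]; ext <;> dsimp <;> ring
    rwa [e] at this
  have m3 : ((-1 + l * a, -1) : ℝ × ℝ) ∈ R := by
    have := vL_mem (k := k) (a := a) (l := l) (.inr 3)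
    have e : vL k a l (.inr 3) = (-1 + l * a, -1) := by
      simp only [vL, cn, cv]; ext <;> dsimp <;> ring
    rwa [e] at this
  have m4 : ((1 - l * a, -1) : ℝ × ℝ) ∈ R := by
    have := vL_mem (k := k) (a := a) (l := l) (.inr 4)
    have e : vL k a l (.inr 4) = (1 - l * a, -1) := by
      simp only [vL, cn, cv]; ext <;> dsimp <;> ring
    rwa [e] at this
  have m5 : ((1, -1 + l * a) : ℝ × ℝ) ∈ R := by
    have := vL_mem (k := k) (a := a) (l := l) (.inr 5)
    have e : vL k a l (.inr 5) = (1, -1 + l * a) := by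
      simp only [vL, cn, cv]; ext <;> dsimp <;> ring
    rwa [e] at this
  -- bounds for the vertices
  have hb : ∀ i : Fin k, l * (1 / 2) ≤ l * (w (i / (k - 1))).1 ∧ l * (w (i / (k - 1))).1 ≤ l * 1 ∧
      l * (1 / 2) ≤ l * (w (i / (k - 1))).2 ∧ l * (w (i / (k - 1))).2 ≤ l * 1 := fun i => by
    obtain ⟨hx1, hx2, hx3, hx4⟩ := w_mem_box (tau_mem hk i).1 (tau_mem hk i).2
    exact ⟨mul_le_mul_of_nonneg_left hx1 hl.le, mul_le_mul_of_nonneg_left hx2 hl.le,
      mul_le_mul_of_nonneg_left hx3 hl.le, mul_le_mul_of_nonneg_left hx4 hl.le⟩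
  refine ⟨R, ?_, ?_, ?_⟩
  · have := gon_of_functionals (vL k a l) (cf k) (exposedL hk h0 h1 hl hl1) hint
    have hc : Fintype.card (Fin k ⊕ Fin 6) = k + 6 := by simp
    rw [hc] at this
    exact this
  · rw [← sq_eq]
    exact hg.sub
  · intro u hu hu1 hu2
    refine quad_of_gd (by linarith) hg hint (κ := l ^ 2 * κ) ?_ ?_ ?_ ?_ hu hu1 hu2
    · rw [hκ]
      exact hv1
    · rw [hκa]
      refine corner' hl hl1 hg.rot h0 h1 ?_ ?_ ?_
      · intro x hx
        have hx' : rot x ∈ R := hx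
        have := vL_le (k := k) (a := a) (l := l) (α := -1) (β := 1) (γ := 2 - l * a) ?_ _ hx'
        · simp only [rot] at this
          linarith
        · intro i
          match i with
          | .inl i =>
            obtain ⟨hx1, hx2, hx3, hx4⟩ := hb i
            simp only [vL, cn, cv]
            linarith
          | .inr 0 => simp only [vL, cn, cv]; linarith
          | .inr 1 => simp only [vL, cn, cv]; linarith
          | .inr 2 => simp only [vL, cn, cv]; linarith
          | .inr 3 => simp only [vL, cn, cv]; linarith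
          | .inr 4 => simp only [vL, cn, cv]; linarith
          | .inr 5 => simp only [vL, cn, cv]; linarith
      · exact m1
      · show ((-(1 - l * a), 1) : ℝ × ℝ) ∈ R
        rw [neg_sub, sub_eq_add_neg, add_comm]
        exact m0
    · rw [hκa]
      refine corner' hl hl1 hg.rot.rot h0 h1 ?_ ?_ ?_
      · intro x hx
        have hx' : rot (rot x) ∈ R := hx
        have := vL_le (k := k) (a := a) (l := l) (α := -1) (β := -1) (γ := 2 - l * a) ?_ _ hx'
        · simp only [rot] at this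
          linarith
        · intro i
          match i with
          | .inl i =>
            obtain ⟨hx1, hx2, hx3, hx4⟩ := hb i
            simp only [vL, cn, cv]
            linarith
          | .inr 0 => simp only [vL, cn, cv]; linarith
          | .inr 1 => simp only [vL, cn, cv]; linarith
          | .inr 2 => simp only [vL, cn, cv]; linarith
          | .inr 3 => simp only [vL, cn, cv]; linarith
          | .inr 4 => simp only [vL, cn, cv]; linarith
          | .inr 5 => simp only [vL, cn, cv]; linarith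
      · show ((-(1 - l * a), -1) : ℝ × ℝ) ∈ R
        rw [neg_sub, sub_eq_add_neg, add_comm]
        exact m3
      · show ((-1, -(1 - l * a)) : ℝ × ℝ) ∈ R
        rw [neg_sub, sub_eq_add_neg, add_comm]
        exact m2
    · rw [hκa]
      refine corner' hl hl1 hg.rot.rot.rot h0 h1 ?_ ?_ ?_
      · intro x hx
        have hx' : rot (rot (rot x)) ∈ R := hx
        have := vL_le (k := k) (a := a) (l := l) (α := 1) (β := -1) (γ := 2 - l * a) ?_ _ hx'
        · simp only [rot] at this
          linarith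
        · intro i
          match i with
          | .inl i =>
            obtain ⟨hx1, hx2, hx3, hx4⟩ := hb i
            simp only [vL, cn, cv]
            linarith
          | .inr 0 => simp only [vL, cn, cv]; linarith
          | .inr 1 => simp only [vL, cn, cv]; linarith
          | .inr 2 => simp only [vL, cn, cv]; linarith
          | .inr 3 => simp only [vL, cn, cv]; linarith
          | .inr 4 => simp only [vL, cn, cv]; linarith
          | .inr 5 => simp only [vL, cn, cv]; linarith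
      · have e : rot (rot (rot ((1 - l * a, 1) : ℝ × ℝ))) = (1, -1 + l * a) := by
          simp only [rot]
          ext <;> simp <;> ring
        show rot (rot (rot ((1 - l * a, 1) : ℝ × ℝ))) ∈ R
        rw [e]
        exact m5
      · have e : rot (rot (rot ((1, 1 - l * a) : ℝ × ℝ))) = (1 - l * a, -1) := by
          simp only [rot]
          ext <;> simp
        show rot (rot (rot ((1, 1 - l * a) : ℝ × ℝ))) ∈ R
        rw [e]
        exact m4

end Pool.Agent.H53Quad
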