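import Pool.Graph.R_pool_sql_team_seeded_3997aac3.Q285.Quad.Cut

set_option autoImplicit false

/-!
# Convex bodies between a plus shape and the square: quadrisections in most directions
-/

namespace Pool.Agent.H53Quad

open MeasureTheory Set Pool.Agent.Q285.Quad

/-- the corner box of side `1 - ρ` -/
def bx (ρ : ℝ) : Set (ℝ × ℝ) := {x | ρ ≤ x.1 ∧ x.1 ≤ 1 ∧ ρ ≤ x.2 ∧ x.2 ≤ 1}

theorem bx_eq (ρ : ℝ) : bx ρ = Icc ρ 1 ×ˢ Icc ρ 1 := by
  ext ⟨a, b⟩
  simp only [bx, mem_ofPred_eq, mem_prod, mem_Icc]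
  tauto

theorem measurable_bx (ρ : ℝ) : MeasurableSet (bx ρ) := by
  rw [bx_eq]
  exact measurableSet_Icc.prod measurableSet_Icc

/-- a convex body between the plus shape of width `2 ρ` and the square -/
structure Gd (ρ : ℝ) (S : Set (ℝ × ℝ)) : Prop where
  conv : Convex ℝ S
  comp : IsCompact S
  sub : S ⊆ sq
  pt : ∀ x y : ℝ, ((x = 1 ∨ x = -1) ∧ (y = ρ ∨ y = -ρ)) ∨
    ((x = ρ ∨ x = -ρ) ∧ (y = 1 ∨ y = -1)) → (x, y) ∈ S

theorem Gd.rot {ρ : ℝ} {S : Set (ℝ × ℝ)} (h : Gd ρ S) : Gd ρ (rot ⁻¹' S) where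
  conv := by
    intro x hx y hy s t hs ht hst
    have h1 := h.conv (show Q285.Quad.rot x ∈ S from hx) (show Q285.Quad.rot y ∈ S from hy) hs ht hst
    show Q285.Quad.rot (s • x + t • y) ∈ S
    convert h1 using 1
    ext <;> simp [Q285.Quad.rot] <;> ring
  comp := by
    have hcl : IsClosed (Q285.Quad.rot ⁻¹' S) := h.comp.isClosed.preimage continuous_rot
    have hsub : Q285.Quad.rot ⁻¹' S ⊆ Icc (-1 : ℝ) 1 ×ˢ Icc (-1 : ℝ) 1 := by
      intro x hx
      have h1 := h.sub hx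
      simp only [Q285.Quad.sq, Q285.Quad.rot, mem_ofPred_eq] at h1
      simp only [mem_prod, mem_Icc]
      refine ⟨⟨by linarith, by linarith⟩, ⟨by linarith, by linarith⟩⟩
    exact (isCompact_Icc.prod isCompact_Icc).of_isClosed_subset hcl hsub
  sub := by
    intro x hx
    have h1 := h.sub hx
    simp only [Q285.Quad.sq, Q285.Quad.rot, mem_ofPred_eq] at h1 ⊢
    refine ⟨by linarith, by linarith, by linarith, by linarith⟩
  pt := by
    intro x y hxy
    show (-y, x) ∈ S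
    apply h.pt
    rcases hxy with ⟨hx, hy⟩ | ⟨hx, hy⟩
    · right
      refine ⟨?_, hx⟩
      rcases hy with rfl | rfl <;> simp
    · left
      refine ⟨?_, hx⟩
      rcases hy with rfl | rfl <;> simp

theorem Gd.plus {ρ : ℝ} {S : Set (ℝ × ℝ)} (h : Gd ρ S) {x : ℝ × ℝ} (hx : x ∈ sq)
    (h1 : (-ρ ≤ x.1 ∧ x.1 ≤ ρ) ∨ (-ρ ≤ x.2 ∧ x.2 ≤ ρ)) : x ∈ S := by
  obtain ⟨h5, h6, h7, h8⟩ := hx
  rcases h1 with ⟨h2, h3⟩ | ⟨h2, h3⟩
  · exact rect_mem h.conv (h.pt (-ρ) (-1) (by simp)) (h.pt (-ρ) 1 (by simp))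
      (h.pt ρ (-1) (by simp)) (h.pt ρ 1 (by simp)) h2 h3 h7 h8
  · exact rect_mem h.conv (h.pt (-1) (-ρ) (by simp))
      (h.pt (-1) ρ (by simp)) (h.pt 1 (-ρ) (by simp))
      (h.pt 1 ρ (by simp)) h5 h6 h2 h3

/-- the first quadrant for the direction `u` -/
def qd (u : ℝ × ℝ) : Set (ℝ × ℝ) := hp u 0 ∩ hp (rot u) 0

theorem mem_qd (u : ℝ × ℝ) (x : ℝ × ℝ) :
    x ∈ qd u ↔ 0 ≤ u.1 * x.1 + u.2 * x.2 ∧ 0 ≤ u.1 * x.2 - u.2 * x.1 := by
  simp only [qd, hp, dot, rot, mem_inter_iff, mem_ofPred_eq]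
  constructor <;> rintro ⟨h1, h2⟩ <;> constructor <;> linarith

theorem quarter' {ρ : ℝ} (hρ : 0 ≤ ρ) {S : Set (ℝ × ℝ)} (h : Gd ρ S) {u : ℝ × ℝ} (hu : 0 < u.1)
    (hu1 : u.2 ≤ ρ * u.1) (hu2 : -(ρ * u.1) ≤ u.2) :
    volume.real (S ∩ qd u) = volume.real ((sq ∩ qd u) \ bx ρ) + volume.real (S ∩ bx ρ) := by
  have hfin : volume (S ∩ qd u) ≠ ⊤ :=
    measure_ne_top_of_subset inter_subset_left (vol_ne_top h.comp)
  have hbox : bx ρ ⊆ qd u := by
    rintro x ⟨hx1, hx2, hx3, hx4⟩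
    rw [mem_qd]
    have h1 : ρ * u.1 ≤ u.1 * x.1 := by
      rw [mul_comm]
      exact mul_le_mul_of_nonneg_left hx1 hu.le
    have h2 : ρ * u.1 ≤ u.1 * x.2 := by
      rw [mul_comm]
      exact mul_le_mul_of_nonneg_left hx3 hu.le
    have hx0 : 0 ≤ x.1 := hρ.trans hx1
    have hx0' : 0 ≤ x.2 := hρ.trans hx3
    have hρu : 0 ≤ ρ * u.1 := mul_nonneg hρ hu.le
    constructor
    · have h3 : -(ρ * u.1) * x.2 ≤ u.2 * x.2 := mul_le_mul_of_nonneg_right hu2 hx0'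
      have h4 : ρ * u.1 * x.2 ≤ ρ * u.1 * 1 := mul_le_mul_of_nonneg_left hx4 hρu
      linarith
    · have h3 : u.2 * x.1 ≤ ρ * u.1 * x.1 := mul_le_mul_of_nonneg_right hu1 hx0
      have h4 : ρ * u.1 * x.1 ≤ ρ * u.1 * 1 := mul_le_mul_of_nonneg_left hx2 hρu
      linarith
  have e := measureReal_inter_add_sdiff (μ := volume) (s := S ∩ qd u) (t := bx ρ)
    (measurable_bx ρ) hfin
  have e1 : S ∩ qd u ∩ bx ρ = S ∩ bx ρ := by
    ext x
    constructor
    · rintro ⟨⟨h2, -⟩, h3⟩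
      exact ⟨h2, h3⟩
    · rintro ⟨h2, h3⟩
      exact ⟨⟨h2, hbox h3⟩, h3⟩
  have e2 : (S ∩ qd u) \ bx ρ = (sq ∩ qd u) \ bx ρ := by
    ext x
    constructor
    · rintro ⟨⟨h2, h3⟩, h4⟩
      exact ⟨⟨h.sub h2, h3⟩, h4⟩
    · rintro ⟨⟨h2, h3⟩, h4⟩
      refine ⟨⟨?_, h3⟩, h4⟩
      rw [mem_qd] at h3
      obtain ⟨h5, h6, h7, h8⟩ := h2
      obtain ⟨h9, h10⟩ := h3
      have hq : |u.2| ≤ ρ * u.1 := abs_le.2 ⟨hu2, hu1⟩
      have hb1 : -(ρ * u.1) ≤ -(u.2 * x.2) := by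
        have : |u.2 * x.2| ≤ |u.2| * 1 := by
          rw [abs_mul]
          exact mul_le_mul_of_nonneg_left (abs_le.2 ⟨h7, h8⟩) (abs_nonneg _)
        have := le_abs_self (u.2 * x.2)
        linarith
      have hb2 : -(ρ * u.1) ≤ u.2 * x.1 := by
        have : |u.2 * x.1| ≤ |u.2| * 1 := by
          rw [abs_mul]
          exact mul_le_mul_of_nonneg_left (abs_le.2 ⟨h5, h6⟩) (abs_nonneg _)
        have := neg_abs_le (u.2 * x.1)
        linarith
      have hx1 : -ρ ≤ x.1 := by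
        by_contra hc
        push Not at hc
        have h11 : u.1 * x.1 < u.1 * (-ρ) := mul_lt_mul_of_pos_left hc hu
        linarith
      have hx2 : -ρ ≤ x.2 := by
        by_contra hc
        push Not at hc
        have h11 : u.1 * x.2 < u.1 * (-ρ) := mul_lt_mul_of_pos_left hc hu
        linarith
      by_cases h13 : x.1 ≤ ρ
      · exact h.plus ⟨h5, h6, h7, h8⟩ (Or.inl ⟨hx1, h13⟩)
      · by_cases h14 : x.2 ≤ ρ
        · exact h.plus ⟨h5, h6, h7, h8⟩ (Or.inr ⟨hx2, h14⟩)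
        · exact absurd ⟨(not_le.1 h13).le, h6, (not_le.1 h14).le, h8⟩ h4
  rw [e1, e2] at e
  linarith

theorem quad_of_gd {ρ : ℝ} (hρ : 0 ≤ ρ) {R : Set (ℝ × ℝ)} (h : Gd ρ R)
    (hint : (interior R).Nonempty) {κ : ℝ}
    (h0 : volume.real (R ∩ bx ρ) = κ) (h1 : volume.real (rot ⁻¹' R ∩ bx ρ) = κ)
    (h2 : volume.real (rot ⁻¹' (rot ⁻¹' R) ∩ bx ρ) = κ)
    (h3 : volume.real (rot ⁻¹' (rot ⁻¹' (rot ⁻¹' R)) ∩ bx ρ) = κ) {u : ℝ × ℝ} (hu : 0 < u.1)
    (hu1 : u.2 ≤ ρ * u.1) (hu2 : -(ρ * u.1) ≤ u.2) :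
    IsQuadrisection R {line 0 u, line 0 (rot u)} := by
  have hu0 : u ≠ 0 := by
    rintro rfl
    simp at hu
  set β := volume.real ((sq ∩ qd u) \ bx ρ) + κ with hβ
  have e0 : volume.real (R ∩ (hp u 0 ∩ hp (rot u) 0)) = β := by
    have := quarter' hρ h hu hu1 hu2
    rw [h0] at this
    exact this
  have e1 : volume.real (R ∩ (hn u 0 ∩ hp (rot u) 0)) = β := by
    rw [← volumeReal_rot, rot_quad, neg_zero]
    have := quarter' hρ h.rot hu hu1 hu2
    rw [h1] at this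
    exact this
  have e2 : volume.real (R ∩ (hn u 0 ∩ hn (rot u) 0)) = β := by
    rw [← volumeReal_rot, rot_quad2, ← volumeReal_rot, rot_quad, neg_zero]
    have := quarter' hρ h.rot.rot hu hu1 hu2
    rw [h2] at this
    exact this
  have e3 : volume.real (R ∩ (hp u 0 ∩ hn (rot u) 0)) = β := by
    rw [← volumeReal_rot, rot_quad3, ← volumeReal_rot, rot_quad2, ← volumeReal_rot, rot_quad,
      neg_zero]
    have := quarter' hρ h.rot.rot.rot hu hu1 hu2
    rw [h3] at this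
    exact this
  have hfin : ∀ S : Set (ℝ × ℝ), volume (R ∩ S) ≠ ⊤ := fun S =>
    measure_ne_top_of_subset inter_subset_left (vol_ne_top h.comp)
  have hru := rot_ne_zero hu0
  have s1 := split (hfin (hp u 0)) (h.comp.measurableSet.inter (isClosed_hp u 0).measurableSet) hru 0
  have s2 := split (hfin (hn u 0)) (h.comp.measurableSet.inter (isClosed_hn u 0).measurableSet) hru 0
  have s3 := split (hfin (hp (rot u) 0))
    (h.comp.measurableSet.inter (isClosed_hp (rot u) 0).measurableSet) hu0 0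
  have s4 := split (vol_ne_top h.comp) h.comp.measurableSet hu0 0
  rw [inter_assoc, inter_assoc] at s1 s2 s3
  rw [inter_comm (hp (rot u) 0) (hp u 0), inter_comm (hp (rot u) 0) (hn u 0)] at s3
  have hV : volume.real R = 4 * β := by linarith
  have hpt : pt u 0 0 = 0 := by simp [pt]
  have := quad_of_zero h.conv h.comp hint hu0 (c := 0) (d := 0) (by linarith) (by linarith)
    (by linarith)
  rwa [hpt] at this

/-- the homothety with centre `(1, 1)` and ratio `l` -/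
def hm (l : ℝ) (x : ℝ × ℝ) : ℝ × ℝ := (1 - l + l * x.1, 1 - l + l * x.2)

theorem volume_hm {l : ℝ} (hl : 0 < l) (A : Set (ℝ × ℝ)) :
    volume (hm l ⁻¹' A) = ENNReal.ofReal |(l ^ 2)⁻¹| * volume A := by
  have h1 : hm l ⁻¹' A = (fun x : ℝ × ℝ => l • x) ⁻¹' ((fun y => (1 - l, 1 - l) + y) ⁻¹' A) := by
    ext x
    simp only [mem_preimage, hm]
    have : ((1 - l, 1 - l) : ℝ × ℝ) + l • x = (1 - l + l * x.1, 1 - l + l * x.2) := by
      ext <;> simp
    rw [this]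
  rw [h1, Measure.addHaar_preimage_smul volume hl.ne', measure_preimage_add]
  have : Module.finrank ℝ (ℝ × ℝ) = 2 := by simp
  rw [this]

theorem volumeReal_hm {l : ℝ} (hl : 0 < l) (A : Set (ℝ × ℝ)) :
    volume.real (hm l ⁻¹' A) = (l ^ 2)⁻¹ * volume.real A := by
  rw [measureReal_def, volume_hm hl, ENNReal.toReal_mul, measureReal_def,
    ENNReal.toReal_ofReal (abs_nonneg _), abs_of_pos (by positivity)]

theorem hm_bx {l : ℝ} (hl : 0 < l) : hm l ⁻¹' (bx (1 - l / 2)) = box := by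
  ext x
  simp only [mem_preimage, hm, bx, box, mem_ofPred_eq]
  constructor
  · rintro ⟨h1, h2, h3, h4⟩
    refine ⟨?_, ?_, ?_, ?_⟩ <;> by_contra hc <;> push Not at hc <;>
      [have := mul_lt_mul_of_pos_left hc hl; have := mul_lt_mul_of_pos_left hc hl;
       have := mul_lt_mul_of_pos_left hc hl; have := mul_lt_mul_of_pos_left hc hl] <;> linarith
  · rintro ⟨h1, h2, h3, h4⟩
    have k1 := mul_le_mul_of_nonneg_left h1 hl.le
    have k2 := mul_le_mul_of_nonneg_left h2 hl.le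
    have k3 := mul_le_mul_of_nonneg_left h3 hl.le
    have k4 := mul_le_mul_of_nonneg_left h4 hl.le
    refine ⟨?_, ?_, ?_, ?_⟩ <;> linarith

theorem continuous_hm (l : ℝ) : Continuous (hm l) := by
  unfold hm
  fun_prop

/-- blowing up a corner -/
theorem good_hm {l : ℝ} (hl : 0 < l) (hl1 : l ≤ 1) {S : Set (ℝ × ℝ)} (h : Gd (1 - l / 2) S) :
    Good (hm l ⁻¹' S ∩ sq) where
  conv := by
    refine Convex.inter ?_ convex_sq
    intro x hx y hy s t hs ht hst
    have h1 := h.conv (show hm l x ∈ S from hx) (show hm l y ∈ S from hy) hs ht hst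
    show hm l (s • x + t • y) ∈ S
    convert h1 using 1
    have e : (1 - l) = s * (1 - l) + t * (1 - l) := by rw [← add_mul, hst, one_mul]
    ext
    · simp only [hm, Prod.fst_add, Prod.smul_fst, smul_eq_mul]
      linear_combination e
    · simp only [hm, Prod.snd_add, Prod.smul_snd, smul_eq_mul]
      linear_combination e
  comp := by
    have hcl : IsClosed (hm l ⁻¹' S) := h.comp.isClosed.preimage (continuous_hm l)
    rw [sq_eq]
    exact (isCompact_Icc.prod isCompact_Icc).inter_left hcl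
  sub := inter_subset_right
  pt := by
    have key : ∀ c : ℝ, (c = 1 / 2 ∨ c = -(1 / 2)) →
        -(1 - l / 2) ≤ 1 - l + l * c ∧ 1 - l + l * c ≤ 1 - l / 2 := by
      rintro c (rfl | rfl) <;> constructor <;> linarith
    have key2 : ∀ c : ℝ, (c = 1 ∨ c = -1) → -1 ≤ 1 - l + l * c ∧ 1 - l + l * c ≤ 1 := by
      rintro c (rfl | rfl) <;> constructor <;> linarith
    have key3 : ∀ c : ℝ, (c = 1 / 2 ∨ c = -(1 / 2)) → -1 ≤ c ∧ c ≤ 1 := by
      rintro c (rfl | rfl) <;> constructor <;> norm_num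
    have key4 : ∀ c : ℝ, (c = 1 ∨ c = -1) → -1 ≤ c ∧ c ≤ 1 := by
      rintro c (rfl | rfl) <;> constructor <;> norm_num
    rintro x y (⟨hx, hy⟩ | ⟨hx, hy⟩)
    · refine ⟨?_, (key4 x hx).1, (key4 x hx).2, (key3 y hy).1, (key3 y hy).2⟩
      show hm l (x, y) ∈ S
      refine h.plus ⟨(key2 x hx).1, (key2 x hx).2, ?_, ?_⟩ (Or.inr (key y hy))
      · have := (key y hy).1
        simp only [hm]
        linarith
      · have := (key y hy).2
        simp only [hm]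
        linarith
    · refine ⟨?_, (key3 x hx).1, (key3 x hx).2, (key4 y hy).1, (key4 y hy).2⟩
      show hm l (x, y) ∈ S
      refine h.plus ⟨?_, ?_, (key2 y hy).1, (key2 y hy).2⟩ (Or.inl (key x hx))
      · have := (key x hx).1
        simp only [hm]
        linarith
      · have := (key x hx).2
        simp only [hm]
        linarith

/-- the area of a cut corner -/
theorem corner' {l : ℝ} (hl : 0 < l) (hl1 : l ≤ 1) {S : Set (ℝ × ℝ)} (h : Gd (1 - l / 2) S)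
    {a : ℝ} (h0 : 0 < a) (h1 : a ≤ 1 / 2)
    (hS : ∀ x ∈ S, x.1 + x.2 ≤ 2 - l * a) (ha1 : (1 - l * a, 1) ∈ S) (ha2 : (1, 1 - l * a) ∈ S) :
    volume.real (S ∩ bx (1 - l / 2)) = l ^ 2 * (1 / 4 - a ^ 2 / 2) := by
  have hg := good_hm hl hl1 h
  have e1 : (hm l ⁻¹' S ∩ sq) ∩ box = hm l ⁻¹' (S ∩ bx (1 - l / 2)) := by
    rw [preimage_inter, hm_bx hl]
    ext x
    constructor
    · rintro ⟨⟨k1, k2⟩, k3⟩
      exact ⟨k1, k3⟩
    · rintro ⟨k1, k2⟩
      refine ⟨⟨k1, ?_⟩, k2⟩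
      obtain ⟨k3, k4, k5, k6⟩ := k2
      exact ⟨by linarith, k4, by linarith, k6⟩
  have hc := corner hg h0 h1 (by
    rintro x ⟨hx, -⟩
    have h2 := hS _ hx
    simp only [hm] at h2
    by_contra hcon
    push Not at hcon
    have := mul_lt_mul_of_pos_left hcon hl
    linarith) (by
    refine ⟨?_, by dsimp; linarith, by dsimp; linarith, by norm_num, by norm_num⟩
    show hm l (1 - a, 1) ∈ S
    have : hm l (1 - a, 1) = (1 - l * a, 1) := by
      simp only [hm]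
      ext <;> simp <;> ring
    rw [this]
    exact ha1) (by
    refine ⟨?_, by norm_num, by norm_num, by dsimp; linarith, by dsimp; linarith⟩
    show hm l (1, 1 - a) ∈ S
    have : hm l (1, 1 - a) = (1, 1 - l * a) := by
      simp only [hm]
      ext <;> simp <;> ring
    rw [this]
    exact ha2)
  rw [e1, volumeReal_hm hl] at hc
  have hl2 : l ^ 2 ≠ 0 := by positivity
  field_simp at hc ⊢
  linarith

end Pool.Agent.H53Quad
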